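import Mathlib

set_option autoImplicit false

open Set Filter Topology Metric Function Module

namespace Pool.Agent.H.MP_2306a6_an

/-- locally injective at a point -/
def LI {X Y : Type} [TopologicalSpace X] (f : X → Y) (a : X) : Prop := ∃ U ∈ 𝓝 a, InjOn f U

lemma LI.comp {X Y Z : Type} [TopologicalSpace X] [TopologicalSpace Y] {f : Y → Z} {g : X → Y}
    {a : X} {b : Y} (hf : LI f b) (hg : LI g a) (hc : ContinuousAt g a) (e : g a = b) :
    LI (fun x => f (g x)) a := by
  obtain ⟨U, hU, iU⟩ := hf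
  obtain ⟨V, hV, iV⟩ := hg
  exact ⟨V ∩ g ⁻¹' U, inter_mem hV (hc (e ▸ hU)), fun x hx y hy h =>
    iV hx.1 hy.1 (iU hx.2 hy.2 h)⟩

lemma LI.ev {X Y : Type} [TopologicalSpace X] {f : X → Y} {a : X} (hf : LI f a) :
    ∀ᶠ x in 𝓝 a, LI f x := by
  obtain ⟨U, hU, iU⟩ := hf
  exact (eventually_mem_nhds_iff.2 hU).mono fun x hx => ⟨U, hx, iU⟩

theorem one {α : ℂ → ℂ} {U : Set ℂ} (hU : IsOpen U) (hα : AnalyticOnNhd ℂ α U)
    (hi : InjOn α U) : ∀ z ∈ U, deriv α z ≠ 0 := by
  have e0 : ∀ z ∈ U, invFunOn α U (α z) = z := hi.leftInvOn_invFunOn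
  have nc : ∀ z ∈ U, ¬ ∀ᶠ y in 𝓝 z, α y = α z := fun z hz h => by
    obtain ⟨y, h1, h2⟩ := (((h.and (hU.eventually_mem hz)).filter_mono
      (nhdsWithin_le_nhds (s := {z}ᶜ))).and self_mem_nhdsWithin).exists
    exact h2 (hi h1.2 hz h1.1)
  have e1 : ∀ z ∈ U, 𝓝 (α z) ≤ map α (𝓝 z) := fun z hz =>
    (hα z hz).eventually_constant_or_nhds_le_map_nhds.resolve_left (nc z hz)
  have e2 : ∀ z ∈ U, Tendsto (invFunOn α U) (𝓝 (α z)) (𝓝 z) :=
    fun z hz => (tendsto_map'_iff.mpr (tendsto_id.congr'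
      ((hU.eventually_mem hz).mono fun y hy => (e0 y hy).symm))).mono_left (e1 z hz)
  have e3 : ∀ z ∈ U, ∀ᶠ y in 𝓝 (α z), y ∈ α '' U := fun z hz =>
    e1 z hz (image_mem_map (hU.mem_nhds hz))
  have e4 : ∀ z ∈ U, ContinuousAt (invFunOn α U) (α z) :=
    fun z hz => by rw [ContinuousAt, e0 z hz]; exact e2 z hz
  have e6 : AnalyticOnNhd ℂ (invFunOn α U) (α '' U) := by
    rintro _ ⟨z, hz, rfl⟩
    refine Complex.analyticAt_of_differentiable_on_punctured_nhds_of_continuousAt ?_ (e4 z hz)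
    have e5 : ∀ᶠ y in 𝓝[≠] z, deriv α y ≠ 0 :=
      (hα z hz).deriv.eventually_eq_zero_or_eventually_ne_zero.resolve_left fun h => by
        obtain ⟨ρ, h0, h1⟩ := Metric.eventually_nhds_iff_ball.1 (h.and (hU.eventually_mem hz))
        exact nc z hz ((isOpen_ball.eventually_mem (mem_ball_self h0)).mono fun y hy =>
          isOpen_ball.is_const_of_deriv_eq_zero (convex_ball z ρ).isPreconnected
            (hα.differentiableOn.mono fun w hw => (h1 w hw).2) (fun w hw => (h1 w hw).1) hy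
            (mem_ball_self h0))
    filter_upwards [self_mem_nhdsWithin, mem_nhdsWithin_of_mem_nhds (e3 z hz),
      mem_nhdsWithin_of_mem_nhds ((e2 z hz).eventually (eventually_nhdsWithin_iff.mp e5))]
    rintro _ h1 ⟨y, hy, rfl⟩ h2
    rw [e0 y hy] at h2
    refine (HasDerivAt.of_local_left_inverse (f := α) (e4 y hy) ?_ (h2 fun e => h1 (congrArg α e))
      ((e3 y hy).mono fun w hw => invFunOn_eq hw)).differentiableAt
    rw [e0 y hy]
    exact (hα y hy).differentiableAt.hasDerivAt
  intro z hz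
  exact right_ne_zero_of_mul_eq_one
    (((e6 _ (mem_image_of_mem α hz)).differentiableAt.hasDerivAt.comp z
      (hα z hz).differentiableAt.hasDerivAt).unique
      ((hasDerivAt_id z).congr_of_eventuallyEq ((hU.eventually_mem hz).mono e0)))

variable {E F : Type} [NormedAddCommGroup E] [NormedSpace ℂ E] [NormedAddCommGroup F]
  [NormedSpace ℂ F]

lemma inv [CompleteSpace E] [CompleteSpace F] {f : E → F} {a : E} {i : E ≃L[ℂ] F}
    (hf : AnalyticAt ℂ f a) (hi : fderiv ℂ f a = i) : ∃ H : F → E, AnalyticAt ℂ H (f a) ∧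
      H (f a) = a ∧ (∀ᶠ y in 𝓝 (f a), f (H y) = y) ∧ HasFDerivAt H (i.symm : F →L[ℂ] E) (f a) := by
  have s : HasStrictFDerivAt f (i : E →L[ℂ] F) a := hi ▸ hf.hasStrictFDerivAt
  exact ⟨s.localInverse f i a, (s.toOpenPartialHomeomorph f).analyticAt_symm'
    s.mem_toOpenPartialHomeomorph_source hf hi, s.localInverse_apply_image,
    s.eventually_right_inverse, s.to_localInverse.hasFDerivAt⟩

lemma straight [CompleteSpace E] {φ : E → ℂ} {p w : E} (hφ : AnalyticAt ℂ φ p)
    (hw : fderiv ℂ φ p w = 1) : ∃ H : E → E, AnalyticAt ℂ H p ∧ H p = p ∧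
      HasFDerivAt H (ContinuousLinearMap.id ℂ E) p ∧ LI H p ∧
      ∀ᶠ y in 𝓝 p, φ (H y) = φ p + fderiv ℂ φ p (y - p) := by
  set L := fderiv ℂ φ p
  set G : E → E := fun z => z + (φ z - φ p - L (z - p)) • w with hG
  have G0 : G p = p := by simp [hG]
  have a : AnalyticAt ℂ G p := analyticAt_id.add (((hφ.sub analyticAt_const).sub
    ((L.analyticAt _).comp (analyticAt_id.sub analyticAt_const))).smul analyticAt_const)
  have d : HasFDerivAt G (ContinuousLinearMap.id ℂ E) p := by
    have := (hasFDerivAt_id p).add (((hφ.differentiableAt.hasFDerivAt.sub_const (φ p)).sub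
      (L.hasFDerivAt.comp p ((hasFDerivAt_id p).sub_const p))).smul_const w)
    exact this.congr_fderiv (by ext x; simp [L])
  obtain ⟨H, h1, h2, h3, h4⟩ := inv (i := ContinuousLinearEquiv.refl ℂ E) a d.fderiv
  rw [G0] at h1 h2 h3 h4
  refine ⟨H, h1, h2, h4, ⟨_, h3, fun x hx y hy h => ?_⟩, h3.mono fun y hy => ?_⟩
  · rw [← show G (H x) = x from hx, h]
    exact hy
  · have := congrArg (fun z => L (z - p)) hy
    simp only [hG, map_sub, map_add, map_smul, hw, smul_eq_mul] at this ⊢
    linear_combination this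

lemma nv [CompleteSpace F] {f : E → F} {p x : E} (hf : AnalyticAt ℂ f p) (hi : LI f p)
    (hx : x ≠ 0) : ¬ ∀ᶠ t in 𝓝 (0 : ℂ), fderiv ℂ f (p + t • x) = 0 := fun h => by
  have c : ContinuousAt (fun t : ℂ => p + t • x) 0 := by fun_prop
  have e : p + (0 : ℂ) • x = p := by simp
  obtain ⟨U, hU, iU⟩ := hi.comp (g := fun t : ℂ => p + t • x)
    ⟨univ, univ_mem, fun s _ t _ h => smul_left_injective ℂ hx (add_left_cancel h)⟩ c e
  have a : ∀ᶠ t in 𝓝 (0 : ℂ), AnalyticAt ℂ f (p + t • x) :=
    (show Tendsto (fun t : ℂ => p + t • x) (𝓝 0) (𝓝 p) from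
      Continuous.tendsto' (by fun_prop) _ _ e).eventually hf.eventually_analyticAt
  obtain ⟨ρ, h0, h1⟩ := Metric.eventually_nhds_iff_ball.1 (h.and (a.and hU))
  have d : ∀ t ∈ ball (0 : ℂ) ρ, HasDerivAt (fun t : ℂ => f (p + t • x)) 0 t := fun t ht => by
    have := (h1 t ht).2.1.differentiableAt.hasFDerivAt.comp_hasDerivAt t
      (((hasDerivAt_id t).smul_const x).const_add p)
    rwa [(h1 t ht).1, zero_apply] at this
  have m : ((ρ / 2 : ℝ) : ℂ) ∈ ball (0 : ℂ) ρ := by
    rw [mem_ball_zero_iff, Complex.norm_real, Real.norm_of_nonneg (by linarith)]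
    linarith
  have := iU (h1 _ m).2.2 (h1 _ (mem_ball_self h0)).2.2 (isOpen_ball.is_const_of_deriv_eq_zero
    (convex_ball _ ρ).isPreconnected (fun t ht => (d t ht).differentiableAt.differentiableWithinAt)
    (fun t ht => (d t ht).deriv) m (mem_ball_self h0))
  norm_cast at this
  linarith

lemma mm {k : E → ℂ} {p w : E} (hk : AnalyticAt ℂ k p) (h0 : k p = 0)
    (hn : ¬ ∀ᶠ t in 𝓝 (0 : ℂ), k (p + t • w) = 0) {V : Set E} (hV : V ∈ 𝓝 p) :
    ∀ᶠ y in 𝓝 p, ∃ t : ℂ, y + t • w ∈ V ∧ k (y + t • w) = 0 := by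
  have c : ContinuousAt (fun q : E × ℂ => q.1 + q.2 • w) (p, 0) := by fun_prop
  have e : p + (0 : ℂ) • w = p := by simp
  have a : AnalyticAt ℂ (fun t : ℂ => k (p + t • w)) 0 :=
    AnalyticAt.comp (e.symm ▸ hk) (by fun_prop)
  have n := eventually_nhdsWithin_iff.1
    (a.eventually_eq_zero_or_eventually_ne_zero.resolve_left hn)
  have b : ∀ᶠ q : E × ℂ in 𝓝 (p, 0), AnalyticAt ℂ k (q.1 + q.2 • w) ∧ q.1 + q.2 • w ∈ V :=
    c.eventually (show ∀ᶠ y in 𝓝 (p + (0 : ℂ) • w), AnalyticAt ℂ k y ∧ y ∈ V from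
      e.symm ▸ hk.eventually_analyticAt.and hV)
  rw [nhds_prod_eq, eventually_prod_iff] at b
  obtain ⟨A, hA, B, hB, hAB⟩ := b
  obtain ⟨ρ, r0, hr⟩ := Metric.nhds_basis_closedBall.eventually_iff.1 (n.and hB)
  have pA := hA.self_of_nhds
  obtain ⟨t0, m0, l0⟩ := (isCompact_sphere (0 : ℂ) ρ).exists_isMinOn
    (f := fun t => ‖k (p + t • w)‖) (NormedSpace.sphere_nonempty.2 r0.le) fun t ht =>
    ((hAB pA (hr (sphere_subset_closedBall ht)).2).1.continuousAt.comp
      (f := fun t : ℂ => p + t • w) (by fun_prop)).norm.continuousWithinAt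
  set m := ‖k (p + t0 • w)‖ / 2 with hm
  have m1 : 0 < m := half_pos (norm_pos_iff.2 ((hr (sphere_subset_closedBall m0)).1
    (ne_of_mem_sphere m0 r0.ne')))
  have s1 : ∀ᶠ y in 𝓝 p, ∀ t ∈ sphere (0 : ℂ) ρ, m < ‖k (y + t • w)‖ :=
    (isCompact_sphere (0 : ℂ) ρ).eventually_forall_of_forall_eventually fun t ht => by
      have c1 : ContinuousAt (fun q : E × ℂ => ‖k (q.1 + q.2 • w)‖) (p, t) :=
        (ContinuousAt.comp (f := fun q : E × ℂ => q.1 + q.2 • w)
          (hAB pA (hr (sphere_subset_closedBall ht)).2).1.continuousAt (by fun_prop)).norm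
      exact c1.eventually (lt_mem_nhds (lt_of_lt_of_le (by linarith) (l0 ht)))
  have s2 : ∀ᶠ y in 𝓝 p, ‖k y‖ < m :=
    hk.continuousAt.norm.eventually (gt_mem_nhds (by simpa [h0] using m1))
  filter_upwards [hA, s1, s2] with y y1 y2 y3
  by_contra hc
  push Not at hc
  have z : ∀ t ∈ closedBall (0 : ℂ) ρ, k (y + t • w) ≠ 0 := fun t ht => hc t (hAB y1 (hr ht).2).2
  have d : DifferentiableOn ℂ (fun t : ℂ => (k (y + t • w))⁻¹) (closedBall 0 ρ) := fun t ht =>
    ((DifferentiableAt.comp (f := fun t : ℂ => y + t • w) t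
      (hAB y1 (hr ht).2).1.differentiableAt (by fun_prop)).inv (z t ht)).differentiableWithinAt
  rw [← closure_ball (0 : ℂ) r0.ne'] at d
  have := Complex.norm_le_of_forall_mem_frontier_norm_le (C := m⁻¹) isBounded_ball d.diffContOnCl
    (fun t ht => by
      rw [frontier_ball _ r0.ne'] at ht
      rw [norm_inv]
      exact inv_anti₀ m1 (y2 t ht).le) (subset_closure (mem_ball_self r0))
  have z0 := z 0 (mem_closedBall_self r0.le)
  simp only [zero_smul, add_zero, norm_inv] at this z0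
  exact (this.trans_lt (inv_strictAnti₀ (norm_pos_iff.2 z0) y3)).false

lemma detan [FiniteDimensional ℂ E] {A : E → E →L[ℂ] E} {p : E} (hA : AnalyticAt ℂ A p) :
    AnalyticAt ℂ (fun z => (A z).det) p := by
  classical
  have b := Module.finBasis ℂ E
  have e : (fun z => (A z).det) = fun z => ∑ σ : Equiv.Perm (Fin (finrank ℂ E)),
      ((Equiv.Perm.sign σ : ℤ) : ℂ) * ∏ i, b.repr (A z (b i)) (σ i) := by
    funext z
    rw [ContinuousLinearMap.det, ← LinearMap.det_toMatrix b, Matrix.det_apply']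
    simp [LinearMap.toMatrix_apply]
  rw [e]
  refine Finset.analyticAt_fun_sum _ fun σ _ => analyticAt_const.mul
    (Finset.analyticAt_fun_prod _ fun i _ => ?_)
  exact ((b.coord (σ i)).toContinuousLinearMap.analyticAt _).comp
    (((ContinuousLinearMap.apply ℂ E (b i)).analyticAt _).comp hA)

/-- rank zero cannot occur when every nonzero derivative is injective -/
lemma rk0 [FiniteDimensional ℂ E] {f : E → E} {a : E} (hf : AnalyticAt ℂ f a) (hi : LI f a)
    (h2 : 1 < finrank ℂ E)
    (hr : ∀ᶠ z in 𝓝 a, fderiv ℂ f z ≠ 0 → Injective (fderiv ℂ f z)) : fderiv ℂ f a ≠ 0 := by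
  intro h0
  have := FiniteDimensional.complete ℂ E
  have : Nontrivial E := Module.nontrivial_of_finrank_pos (R := ℂ) (by omega)
  obtain ⟨w, w0⟩ := exists_ne (0 : E)
  obtain ⟨U, hU, oU, aU⟩ := _root_.eventually_nhds_iff.1 (hr.and (hf.eventually_analyticAt.and hi.ev))
  set h : E → ℂ := fun z => (fderiv ℂ f z).det with hh
  have z1 : ∀ z ∈ U, h z = 0 ↔ fderiv ℂ f z = 0 := fun z hz => by
    constructor
    · intro e
      by_contra c
      exact (LinearMap.det_eq_zero_iff_ker_ne_bot.1 e) (LinearMap.ker_eq_bot.2 ((hU z hz).1 c))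
    · intro e
      simp [hh, e, ContinuousLinearMap.det]
  let D : ℕ → E → ℂ := fun j => Nat.rec h (fun _ g z => fderiv ℂ g z w) j
  have aD : ∀ j, ∀ z ∈ U, AnalyticAt ℂ (D j) z := fun j => by
    induction j with
    | zero => exact fun z hz => detan (hU z hz).2.1.fderiv
    | succ j ih =>
      exact fun z hz => ((ContinuousLinearMap.apply ℂ ℂ w).analyticAt _).comp (ih z hz).fderiv
  have ln : ∀ z ∈ U, ∀ x : E, ∀ᶠ t in 𝓝 (0 : ℂ), z + t • x ∈ U := fun z hz x =>
    (show Tendsto (fun t : ℂ => z + t • x) (𝓝 0) (𝓝 z) from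
      Continuous.tendsto' (by fun_prop) _ _ (by simp)).eventually (oU.mem_nhds hz)
  have ex : ∃ j, ∃ z ∈ U, h z = 0 ∧ D j z ≠ 0 := by
    by_contra c
    push Not at c
    have it : ∀ j, ∀ᶠ t in 𝓝 (0 : ℂ), iteratedDeriv j (fun t : ℂ => h (a + t • w)) t =
        D j (a + t • w) := fun j => by
      induction j with
      | zero => exact .of_forall fun t => rfl
      | succ j ih =>
        filter_upwards [ih.eventually_nhds, ln a aU w] with t t1 t2
        rw [iteratedDeriv_succ, Filter.EventuallyEq.deriv_eq t1]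
        have := ((aD j _ t2).differentiableAt.hasFDerivAt.comp_hasDerivAt t
          (((hasDerivAt_id t).smul_const w).const_add a)).deriv
        rw [one_smul] at this
        exact this
    have an : AnalyticAt ℂ (fun t : ℂ => h (a + t • w)) 0 :=
      AnalyticAt.comp (g := D 0) (by simpa using aD 0 a aU) (by fun_prop)
    have o : analyticOrderAt (fun t : ℂ => h (a + t • w)) 0 = ⊤ := by
      refine ENat.eq_top_iff_forall_ge.2 fun m => ?_
      refine (natCast_le_analyticOrderAt_iff_iteratedDeriv_eq_zero an).2 fun j _ => ?_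
      rw [(it j).self_of_nhds]
      simpa using c j a aU ((z1 a aU).2 h0)
    refine nv hf hi w0 ?_
    filter_upwards [analyticOrderAt_eq_top.1 o, ln a aU w] with t t1 t2
    exact (z1 _ t2).1 t1
  obtain ⟨k, ⟨p, pU, p0, p1⟩, hk⟩ := (wellFounded_lt (α := ℕ)).has_min
    {j | ∃ z ∈ U, h z = 0 ∧ D j z ≠ 0} ex
  obtain ⟨j, rfl⟩ : ∃ j, k = j + 1 := Nat.exists_eq_succ_of_ne_zero fun e => by
    rw [e] at p1
    exact p1 p0
  have g0 : ∀ z ∈ U, h z = 0 → D j z = 0 := fun z hz e => by
    by_contra c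
    exact hk j ⟨z, hz, e, c⟩ (by omega)
  replace p1 : fderiv ℂ (D j) p w ≠ 0 := p1
  set L := fderiv ℂ (D j) p with hL
  obtain ⟨H, h1, h3, h4, h5, h6⟩ := straight (w := (L w)⁻¹ • w) (aD j p pU)
    (by rw [map_smul, smul_eq_mul, inv_mul_cancel₀ p1])
  have tH : Tendsto H (𝓝 p) (𝓝 p) := by simpa [ContinuousAt, h3] using h1.continuousAt
  have af : AnalyticAt ℂ (fun y => f (H y)) p := AnalyticAt.comp (h3.symm ▸ (hU p pU).2.1) h1
  have li : LI (fun y => f (H y)) p := (hU p pU).2.2.comp h5 h1.continuousAt h3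
  have hV := (tH.eventually (oU.mem_nhds pU)).and (h6.and h1.eventually_analyticAt)
  have zz : ∀ x : E, x ≠ 0 → ¬ ∀ᶠ t in 𝓝 (0 : ℂ), h (H (p + t • x)) = 0 := fun x hx c => by
    refine nv af li hx ?_
    filter_upwards [c, (show Tendsto (fun t : ℂ => p + t • x) (𝓝 0) (𝓝 p) from
      Continuous.tendsto' (by fun_prop) _ _ (by simp)).eventually hV] with t t1 t2
    refine ((hU _ t2.1).2.1.differentiableAt.hasFDerivAt.comp _
      t2.2.2.differentiableAt.hasFDerivAt).fderiv.trans ?_
    simp [(z1 _ t2.1).1 t1]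
  have M := mm (k := fun y => h (H y)) (w := w) (AnalyticAt.comp (g := D 0) (h3.symm ▸ aD 0 p pU) h1)
    (by rw [h3]; exact p0) (zz w w0) hV
  obtain ⟨u, u1, u0⟩ : ∃ u, L u = 0 ∧ u ≠ 0 := by
    by_contra c
    push Not at c
    have := LinearMap.finrank_le_finrank_of_injective (f := (L : E →ₗ[ℂ] ℂ))
      ((injective_iff_map_eq_zero _).2 c)
    rw [finrank_self] at this
    omega
  refine zz u u0 ?_
  filter_upwards [(show Tendsto (fun t : ℂ => p + t • u) (𝓝 0) (𝓝 p) from
      Continuous.tendsto' (by fun_prop) _ _ (by simp)).eventually M]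
  rintro s ⟨t, t1, t2⟩
  have e := t1.2.1
  rw [g0 _ t1.1 t2, g0 p pU p0, add_assoc, add_sub_cancel_left, map_add, map_smul, map_smul, u1,
    smul_zero, zero_add, zero_add, smul_eq_mul] at e
  rw [(mul_eq_zero.1 e.symm).resolve_right p1] at t2
  simpa using t2

/-- an injective holomorphic map between spaces of equal dimension has injective derivative -/
theorem osgood (n : ℕ) : ∀ (E F : Type) [NormedAddCommGroup E] [NormedSpace ℂ E]
    [NormedAddCommGroup F] [NormedSpace ℂ F] [FiniteDimensional ℂ E] [FiniteDimensional ℂ F],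
    finrank ℂ E = n → finrank ℂ F = n → ∀ (f : E → F) (a : E), AnalyticAt ℂ f a → LI f a →
      Injective (fderiv ℂ f a) := by
  induction n with
  | zero =>
    intro E F _ _ _ _ _ _ hE _ f a _ _
    have := Module.finrank_zero_iff.1 hE
    exact injective_of_subsingleton _
  | succ n ih =>
    intro E F _ _ _ _ _ _ hE hF
    have := FiniteDimensional.complete ℂ E
    have := FiniteDimensional.complete ℂ F
    have key : ∀ (f : E → F) (a : E), AnalyticAt ℂ f a → LI f a → fderiv ℂ f a ≠ 0 →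
        Injective (fderiv ℂ f a) := fun f a hf hi h0 => by
      set L := fderiv ℂ f a with hL
      obtain ⟨u, hu⟩ : ∃ u, L u ≠ 0 := by
        by_contra c
        push Not at c
        exact h0 (ContinuousLinearMap.ext c)
      obtain ⟨l, -, l1⟩ := exists_dual_vector ℂ (L u) (norm_ne_zero_iff.2 hu)
      have n0 : (‖L u‖ : ℂ) ≠ 0 := by simpa using hu
      set w := (‖L u‖ : ℂ)⁻¹ • u with hw
      have d : HasFDerivAt (fun z => l (f z)) (l.comp L) a :=
        l.hasFDerivAt.comp a hf.differentiableAt.hasFDerivAt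
      have w1 : l (L w) = 1 := by
        rw [hw, map_smul, map_smul, l1]
        exact inv_mul_cancel₀ n0
      obtain ⟨H, h1, h3, h4, h5, h6⟩ := straight (w := w) ((l.analyticAt _).comp hf)
        (by rw [show l ∘ f = fun z => l (f z) from rfl, d.fderiv]; exact w1)
      rw [show l ∘ f = fun z => l (f z) from rfl, d.fderiv] at h6
      have rk : ∀ {X : Type} [NormedAddCommGroup X] [NormedSpace ℂ X] [FiniteDimensional ℂ X]
          (m : X →L[ℂ] ℂ) (x : X), m x = 1 → finrank ℂ X = n + 1 →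
          finrank ℂ (LinearMap.ker (m : X →ₗ[ℂ] ℂ)) = n := fun m x hx hX => by
        have := LinearMap.finrank_range_add_finrank_ker m.toLinearMap
        rw [LinearMap.range_eq_top.2 fun c => ⟨c • x, by simp [hx]⟩, finrank_top,
          finrank_self] at this
        omega
      set K := LinearMap.ker ((l.comp L : E →L[ℂ] ℂ) : E →ₗ[ℂ] ℂ) with hK
      set N := LinearMap.ker (l : F →ₗ[ℂ] ℂ) with hN
      let π : F →L[ℂ] N := (ContinuousLinearMap.id ℂ F - l.smulRight (L w)).codRestrict N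
        fun y => by simp [hN, w1]
      have pv : ∀ y, (π y : F) = y - l y • L w := fun y => rfl
      have c : HasFDerivAt (fun m : K => a + (m : E)) K.subtypeL 0 :=
        K.subtypeL.hasFDerivAt.const_add a
      have c0 : a + ((0 : K) : E) = a := by simp
      have tc : Tendsto (fun m : K => a + (m : E)) (𝓝 0) (𝓝 a) := by
        simpa [ContinuousAt] using c.continuousAt
      have li : LI (fun m : K => f (H (a + (m : E)))) 0 :=
        (hi.comp h5 h1.continuousAt h3).comp
          ⟨univ, univ_mem, fun x _ y _ h => Subtype.ext (add_left_cancel h)⟩ c.continuousAt c0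
      have df : HasFDerivAt (fun m : K => π (f (H (a + (m : E))))) (π.comp (L.comp
          ((ContinuousLinearMap.id ℂ E).comp K.subtypeL))) 0 :=
        π.hasFDerivAt.comp _ (HasFDerivAt.comp _ (by
          rw [c0, h3]; exact hf.differentiableAt.hasFDerivAt)
          (HasFDerivAt.comp (0 : K) (by rw [c0]; exact h4) c))
      have := ih K N (rk _ w w1 hE) (rk _ _ w1 hF) (fun m : K => π (f (H (a + (m : E))))) 0
        ((π.analyticAt _).comp (AnalyticAt.comp (g := f) (by rw [c0, h3]; exact hf)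
          (AnalyticAt.comp (g := H) (by rw [c0]; exact h1)
            (analyticAt_const.add (K.subtypeL.analyticAt _))))) (by
          obtain ⟨U, hU, iU⟩ := li
          refine ⟨_, inter_mem hU (tc.eventually h6), fun x hx y hy h => iU hx.1 hy.1 ?_⟩
          have e := congrArg Subtype.val h
          have x1 : l (f (H (a + x))) = l (f a) + l (L (a + x - a)) := hx.2
          have y1 : l (f (H (a + y))) = l (f a) + l (L (a + y - a)) := hy.2
          have x2 : l (L x) = 0 := x.2
          have y2 : l (L y) = 0 := y.2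
          rw [add_sub_cancel_left] at x1 y1
          rw [pv, pv, x1, y1, x2, y2] at e
          exact sub_left_injective e)
      rw [df.fderiv] at this
      refine (injective_iff_map_eq_zero _).2 fun x hx => ?_
      have := (injective_iff_map_eq_zero _).1 this ⟨x, by simp [hK, hx]⟩ (by simp [hx])
      exact congrArg Subtype.val this
    intro f a hf hi
    refine key f a hf hi fun h0 => ?_
    rcases n with _ | n
    · let e := ContinuousLinearEquiv.ofFinrankEq (𝕜 := ℂ) (hE.trans (finrank_self ℂ).symm)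
      let g := ContinuousLinearEquiv.ofFinrankEq (𝕜 := ℂ) (hF.trans (finrank_self ℂ).symm)
      have an : AnalyticAt ℂ (fun z => g (f (e.symm z))) (e a) :=
        (g.analyticAt _).comp (AnalyticAt.comp (g := f) (by simpa using hf) (e.symm.analyticAt _))
      obtain ⟨U, hU, iU⟩ := LI.comp (f := g) ⟨univ, univ_mem, g.injective.injOn⟩ (hi.comp
        (g := e.symm) (a := e a) ⟨univ, univ_mem, e.symm.injective.injOn⟩
        e.symm.continuous.continuousAt (by simp)) ((g.symm.analyticAt _).comp an |>.continuousAt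
          |>.congr (.of_forall fun z => by simp)) rfl
      obtain ⟨V, hV, oV, aV⟩ := _root_.eventually_nhds_iff.1 (an.eventually_analyticAt.and hU)
      refine one oV (fun z hz => (hV z hz).1) (iU.mono fun z hz => (hV z hz).2) _ aV ?_
      have := (g.hasFDerivAt.comp _ (HasFDerivAt.comp (g := f) (e a) (by
        simpa using hf.differentiableAt.hasFDerivAt) e.symm.hasFDerivAt)).hasDerivAt.deriv
      exact this.trans (by simp [h0])
    · let g := ContinuousLinearEquiv.ofFinrankEq (𝕜 := ℂ) (hF.trans hE.symm)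
      have dg : ∀ z, fderiv ℂ (fun z => g (f z)) z = (g : F →L[ℂ] E).comp (fderiv ℂ f z) :=
        fun z => g.comp_fderiv
      refine rk0 (f := fun z => g (f z)) ((g.analyticAt _).comp hf)
        (LI.comp (f := g) ⟨univ, univ_mem, g.injective.injOn⟩ hi hf.continuousAt rfl)
        (by omega) ?_ (by simp [dg, h0])
      filter_upwards [hf.eventually_analyticAt, hi.ev] with z z1 z2 z3
      rw [dg] at z3 ⊢
      exact g.injective.comp (key f z z1 z2 fun c => z3 (by simp [c]))

end Pool.Agent.H.MP_2306a6_an
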