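import Pool.Agent.H.MP_2306a6_an.A

set_option autoImplicit false

open Set Filter Topology Metric Function Complex Asymptotics
open scoped ComplexConjugate

namespace Pool.Agent.H.MP_2306a6_an

lemma mean {F : ℂ → ℂ} {L : ℂ} (df : DifferentiableOn ℂ F (closedBall 0 1 \ {0}))
    (hL : Tendsto F (𝓝[≠] 0) (𝓝 L)) (hp : ∀ s ∈ sphere (0 : ℂ) 1, 0 ≤ (F s).re) : 0 ≤ L.re := by
  have cf : ContinuousOn F (sphere 0 1) := df.continuousOn.mono fun s hs =>
    ⟨sphere_subset_closedBall hs, ne_of_mem_sphere hs one_ne_zero⟩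
  have i1 : Real.circleAverage F 0 1 = L := by
    rw [Real.circleAverage_eq_circleIntegral one_ne_zero,
      circleIntegral_sub_center_inv_smul_of_differentiable_on_off_countable_of_tendsto one_pos
        countable_empty df.continuousOn (fun s hs => df.differentiableAt (mem_of_superset
          ((isOpen_ball.sdiff isClosed_singleton).mem_nhds hs.1)
          (sdiff_subset_sdiff_left ball_subset_closedBall))) hL, inv_smul_smul₀ two_pi_I_ne_zero]
  have := Real.circleAverage_nonneg_of_nonneg (c := 0) (R := 1) (f := reCLM ∘ F) fun s hs =>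
    hp s (by simpa using hs)
  rwa [reCLM.circleAverage_comp_comm (cf.circleIntegrable zero_le_one), i1] at this

lemma fr {b : ℂ} (hb : ‖b‖ ^ 2 ≤ 2 / 9) : ∃ (q : ℝ) (p : ℂ), ‖p‖ < q ∧ q ≤ 1 ∧
    q ^ 2 + ‖p‖ ^ 2 = 1 ∧ q * p = b := by
  set d := √(1 - 4 * ‖b‖ ^ 2)
  have d2 : d ^ 2 = 1 - 4 * ‖b‖ ^ 2 := Real.sq_sqrt (by linarith)
  have d0 : 0 < d := Real.sqrt_pos.2 (by linarith)
  set q := √((1 + d) / 2)
  have q2 : q ^ 2 = (1 + d) / 2 := Real.sq_sqrt (by linarith)
  have q0 : 0 < q := Real.sqrt_pos.2 (by linarith)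
  have e : ‖b / q‖ ^ 2 = (1 - d) / 2 := by
    rw [norm_div, div_pow, norm_real, Real.norm_of_nonneg q0.le, q2, div_eq_iff (by linarith)]
    linarith
  refine ⟨q, b / q, lt_of_pow_lt_pow_left₀ 2 q0.le (by linarith), ?_, by linarith,
    mul_div_cancel₀ _ (ofReal_ne_zero.2 q0.ne')⟩
  nlinarith [sq_nonneg ‖b / q‖]

variable {E : Type} [NormedAddCommGroup E] [InnerProductSpace ℂ E] [CompleteSpace E]

/-- the second order term at the origin -/
noncomputable def P (g : E → E) (z : E) : E := (1 / 2 : ℂ) • iteratedFDeriv ℂ 2 g 0 fun _ => z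

omit [CompleteSpace E] in
lemma Psmul (g : E → E) (c : ℂ) (z : E) : P g (c • z) = c ^ 2 • P g z := by
  have := (iteratedFDeriv ℂ 2 g 0).map_smul_univ (fun _ => c) fun _ => z
  rw [P, this, smul_comm, P]
  simp

lemma jet {g : E → E} {c : ℂ} (hg : AnalyticAt ℂ g 0) (h0 : g 0 = 0)
    (h1 : fderiv ℂ g 0 = c • ContinuousLinearMap.id ℂ E) {x : ℂ → E} {a : E}
    (hx : Tendsto (fun ζ => ζ⁻¹ • x ζ) (𝓝[≠] 0) (𝓝 a)) :
    Tendsto (fun ζ => (ζ ^ 2)⁻¹ • (g (x ζ) - c • x ζ)) (𝓝[≠] 0) (𝓝 (P g a)) := by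
  obtain ⟨p, r, hp⟩ := hg
  have o := hp.hasFPowerSeriesAt.isBigO_sub_partialSum_pow 3
  have e : ∀ y, p.partialSum 3 y = c • y + P g y := fun y => by
    have a1 := congrArg (fun A => A y) (hp.hasFPowerSeriesAt.fderiv_eq.symm.trans h1)
    have a2 := hp.factorial_smul y 2
    simp only [continuousMultilinearCurryFin1_apply] at a1
    simp only [FormalMultilinearSeries.partialSum, Finset.sum_range_succ, Finset.sum_range_zero,
      hp.coeff_zero, h0, zero_add, P, ← a2]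
    congr 1
    rw [← Nat.cast_smul_eq_nsmul ℂ, smul_smul]
    simp
  have x1 : x =O[𝓝[≠] 0] fun ζ : ℂ => ζ := by
    refine ((isBigO_refl (fun ζ : ℂ => ζ) _).smul (hx.isBigO_one ℂ)).congr' ?_ (by simp)
    filter_upwards [self_mem_nhdsWithin] with ζ hζ
    exact smul_inv_smul₀ hζ _
  have t0 : Tendsto (fun ζ : ℂ => ζ) (𝓝[≠] 0) (𝓝 0) := nhdsWithin_le_nhds
  have o2 := (isBigO_refl (fun ζ : ℂ => (ζ ^ 2)⁻¹) _).smul ((o.comp_tendsto
    (x1.trans_tendsto t0)).trans ((x1.norm_left.pow 3)))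
  have t1 := (o2.congr' EventuallyEq.rfl (g₂ := fun ζ => ζ) (by
    filter_upwards [self_mem_nhdsWithin] with ζ hζ
    have : ζ ≠ 0 := hζ
    simp only [smul_eq_mul]
    field_simp)).trans_tendsto t0
  have cP : Continuous (P g) := by unfold P; fun_prop
  have := t1.add ((cP.tendsto a).comp hx)
  rw [zero_add] at this
  refine this.congr fun ζ => ?_
  simp only [comp_apply, zero_add, e, Psmul, inv_pow, smul_sub, smul_add]
  abel

omit [CompleteSpace E] in
lemma ray (u : E) : Tendsto (fun ζ : ℂ => ζ⁻¹ • ζ • u) (𝓝[≠] 0) (𝓝 u) :=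
  tendsto_const_nhds.congr' (eventually_nhdsWithin_of_forall fun _ h => (inv_smul_smul₀ h u).symm)

/-- the sharp second order estimate in the Caratheodory class of the ball -/
theorem key {h : E → E} {c : ℝ} (hd : AnalyticOnNhd ℂ h (ball 0 1)) (h0 : h 0 = 0)
    (h1 : fderiv ℂ h 0 = (c : ℂ) • ContinuousLinearMap.id ℂ E)
    (hp : ∀ z ∈ ball (0 : E) 1, 0 ≤ (inner ℂ z (h z)).re) {u : E} (hu : ‖u‖ = 1) :
    ‖P h u‖ ≤ 3 * √3 / 2 * c := by
  obtain ⟨w, w1, w2⟩ : ∃ w : E, ‖w‖ = 1 ∧ inner ℂ w (P h u) = -(‖P h u‖ : ℂ) := by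
    by_cases z : P h u = 0
    · exact ⟨u, hu, by simp [z]⟩
    · have n : (‖P h u‖ : ℂ) ≠ 0 := by simpa using z
      refine ⟨(-(‖P h u‖ : ℂ)⁻¹) • P h u, by simp [norm_smul, z], ?_⟩
      rw [inner_smul_left, inner_self_eq_norm_sq_to_K]
      simp
      field_simp
  have t3 : √3 ^ 2 = 3 := Real.sq_sqrt (by norm_num)
  have t0 : 0 < √3 := by positivity
  set s := √3 / 3 with hs
  set y := √(2 / 3)
  have y2 : y ^ 2 = 2 / 3 := Real.sq_sqrt (by norm_num)
  have y0 : 0 < y := by positivity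
  have s0 : 0 < s := by positivity
  have s2 : s ^ 2 = 1 / 3 := by rw [hs, div_pow, t3]; norm_num
  set b : ℂ := y * s * inner ℂ u w with hb
  obtain ⟨q, p, q1, q2, q3, q4⟩ := fr (b := b) (by
    have := norm_inner_le_norm (𝕜 := ℂ) u w
    rw [hu, w1, one_mul] at this
    simp only [hb, norm_mul, mul_pow, norm_real, Real.norm_eq_abs, sq_abs, y2, s2]
    nlinarith [norm_nonneg (inner ℂ u w)])
  have q0 : 0 < q := (norm_nonneg p).trans_lt q1
  have qc : (q : ℂ) ≠ 0 := ofReal_ne_zero.2 q0.ne'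
  set ψ : ℂ → E := fun ζ => (y * ζ) • u + (s * ζ ^ 2) • w with hψ
  have qn : ∀ ζ ∈ closedBall (0 : ℂ) 1, q + p * ζ ≠ 0 := fun ζ hζ e => by
    rw [mem_closedBall_zero_iff] at hζ
    have := congrArg norm (eq_neg_of_add_eq_zero_left e)
    rw [norm_neg, norm_mul, norm_real, Real.norm_of_nonneg q0.le] at this
    nlinarith [norm_nonneg p]
  have N1 : ∀ ζ ∈ sphere (0 : ℂ) 1, ‖ψ ζ‖ ^ 2 = (1 + 2 * b * ζ).re := fun ζ hζ => by
    rw [mem_sphere_zero_iff_norm] at hζ
    have e : inner ℂ ((y * ζ) • u) ((s * ζ ^ 2) • w) = b * ζ := by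
      have := conj_mul' ζ
      rw [hζ] at this
      simp only [inner_smul_left, inner_smul_right, map_mul, conj_ofReal, hb]
      push_cast at this
      linear_combination (s * y * ζ * inner ℂ u w) * this
    rw [hψ, norm_add_sq (𝕜 := ℂ), e]
    simp only [norm_smul, norm_mul, norm_pow, hζ, hu, w1, norm_real, Real.norm_eq_abs, mul_one,
      one_pow, sq_abs, y2, s2, mul_assoc, add_re, one_re, RCLike.re_to_complex]
    simp
    ring
  have N2 : ∀ ζ ∈ sphere (0 : ℂ) 1, ‖q + p * ζ‖ ^ 2 = (1 + 2 * b * ζ).re := fun ζ hζ => by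
    rw [mem_sphere_zero_iff_norm] at hζ
    rw [← q4, Complex.sq_norm, normSq_add, normSq_mul, normSq_eq_norm_sq p, normSq_eq_norm_sq ζ,
      hζ]
    simp
    linarith
  have dφ : DifferentiableOn ℂ (fun ζ => (q + p * ζ)⁻¹ • ψ ζ) (closedBall 0 1) :=
    (DifferentiableOn.inv (by fun_prop) qn).smul (by fun_prop)
  have N3 : ∀ ζ ∈ closedBall (0 : ℂ) 1, ‖(q + p * ζ)⁻¹ • ψ ζ‖ ≤ 1 := fun ζ hζ => by
    rw [← closure_ball _ one_ne_zero] at hζ dφ
    refine norm_le_of_forall_mem_frontier_norm_le isBounded_ball dφ.diffContOnCl (fun t ht => ?_) hζ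
    rw [frontier_ball _ one_ne_zero] at ht
    rw [norm_smul, norm_inv, (pow_left_inj₀ (norm_nonneg _) (norm_nonneg _) two_ne_zero).1
      ((N1 t ht).trans (N2 t ht).symm), inv_mul_cancel₀
      (norm_ne_zero_iff.2 (qn t (sphere_subset_closedBall ht)))]
  have main : ∀ r : ℝ, 0 < r → r < 1 → r * (s * y ^ 2 * ‖P h u‖) ≤ c := fun r r0 r1 => by
    have rc : (r : ℂ) ≠ 0 := ofReal_ne_zero.2 r0.ne'
    set x : ℂ → E := fun ζ => (r : ℂ) • (q + p * ζ)⁻¹ • ψ ζ with hx
    have xm : MapsTo x (closedBall 0 1) (ball 0 1) := fun ζ hζ => by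
      rw [mem_ball_zero_iff, hx, norm_smul, norm_real, Real.norm_of_nonneg r0.le]
      nlinarith [N3 ζ hζ]
    have tx : Tendsto (fun ζ => ζ⁻¹ • x ζ) (𝓝[≠] 0) (𝓝 ((r * y / q : ℂ) • u)) := by
      have : ContinuousAt (fun ζ : ℂ => (r * (q + p * ζ)⁻¹) • ((y : ℂ) • u + (s * ζ) • w)) 0 :=
        (continuousAt_const.mul (ContinuousAt.inv₀ (by fun_prop) (by simpa using qc))).smul
          (by fun_prop)
      refine (this.tendsto.mono_left nhdsWithin_le_nhds).congr' ?_ |>.trans (le_of_eq ?_)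
      · filter_upwards [self_mem_nhdsWithin] with ζ hζ
        have : ζ ≠ 0 := hζ
        simp only [hx, hψ, smul_add, smul_smul]
        congr 2 <;> field_simp
      · simp only [mul_zero, add_zero, zero_smul, smul_smul, div_eq_mul_inv, mul_right_comm]
    have tk := jet (hd 0 (mem_ball_self one_pos)) h0 h1 tx
    set k : ℂ → E := fun ζ => (ζ ^ 2)⁻¹ • (h (x ζ) - (c : ℂ) • x ζ) with hk
    have dx : DifferentiableOn ℂ x (closedBall 0 1) := dφ.const_smul _
    have dk : DifferentiableOn ℂ k (closedBall 0 1 \ {0}) :=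
      (DifferentiableOn.inv (by fun_prop) fun ζ hζ => pow_ne_zero _ hζ.2).smul
        (((hd.differentiableOn.comp dx xm).sub (dx.const_smul _)).mono sdiff_subset)
    have di : ∀ a : E, DifferentiableOn ℂ (fun ζ => inner ℂ a (k ζ)) (closedBall 0 1 \ {0}) :=
      fun a => (innerSL ℂ a).differentiable.comp_differentiableOn dk
    have ti : ∀ a : E, Tendsto (fun ζ => inner ℂ a (k ζ)) (𝓝[≠] 0) (𝓝 (inner ℂ a
        (P h ((r * y / q : ℂ) • u)))) := fun a => tendsto_const_nhds.inner tk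
    have t1 : Tendsto (fun ζ : ℂ => ζ) (𝓝[≠] 0) (𝓝 0) := nhdsWithin_le_nhds
    have := mean (F := fun ζ => (q + p * ζ) * (y * ζ * inner ℂ u (k ζ) + s * inner ℂ w (k ζ)) +
      c * r * (1 + 2 * b * ζ)) ((DifferentiableOn.mul (by fun_prop) ((DifferentiableOn.mul
        (by fun_prop) (di u)).add ((di w).const_mul _))).add (by fun_prop))
      ((((t1.const_mul p).const_add _).mul (((t1.const_mul _).mul (ti u)).add
        ((ti w).const_mul _))).add (((t1.const_mul _).const_add _).const_mul _)) fun ζ hζ => by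
      have z0 := ne_of_mem_sphere hζ one_ne_zero
      have z1 := qn ζ (sphere_subset_closedBall hζ)
      have cj : conj ζ = ζ⁻¹ := (inv_eq_conj (mem_sphere_zero_iff_norm.1 hζ)).symm
      have e1 : y * ζ * inner ℂ u (k ζ) + s * inner ℂ w (k ζ) = inner ℂ (ψ ζ) (ζ ^ 2 • k ζ) := by
        simp only [hψ, inner_add_left, inner_smul_left, inner_smul_right, map_mul, map_pow, cj,
          conj_ofReal]
        field_simp
      have e2 : ψ ζ = ((q + p * ζ) / r) • x ζ := by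
        rw [hx, smul_smul, smul_smul, div_mul_cancel₀ _ rc, mul_inv_cancel₀ z1, one_smul]
      have e3 : (q + p * ζ) * inner ℂ (ψ ζ) (ζ ^ 2 • k ζ) =
          ((‖q + p * ζ‖ ^ 2 / r : ℝ) : ℂ) * inner ℂ (x ζ) (h (x ζ)) - ((c * r * ‖ψ ζ‖ ^ 2 : ℝ) : ℂ) := by
        have := inner_self_eq_norm_sq_to_K (𝕜 := ℂ) (ψ ζ)
        push_cast
        erw [← this]
        rw [hk, smul_inv_smul₀ (pow_ne_zero _ z0), ← conj_mul', e2]
        simp only [inner_smul_left, inner_smul_right, inner_sub_right, map_div₀, conj_ofReal]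
        field_simp
      rw [e1, e3, add_re, sub_re, re_ofReal_mul, ofReal_re, ← ofReal_mul, re_ofReal_mul,
        ← N1 ζ hζ, sub_add_cancel]
      exact mul_nonneg (by positivity) (hp _ (xm (sphere_subset_closedBall hζ)))
    rw [Psmul, inner_smul_right w, w2] at this
    have e : ∀ A : ℂ, ((q : ℂ) + p * 0) * (y * 0 * A + s * ((r * y / q) ^ 2 * -(‖P h u‖ : ℂ))) +
        c * r * (1 + 2 * b * 0) = ((r / q * (c * q - r * (s * y ^ 2 * ‖P h u‖)) : ℝ) : ℂ) :=
      fun A => by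
      push_cast
      field_simp
      ring
    rw [e, ofReal_re] at this
    have a1 := nonneg_of_mul_nonneg_right this (div_pos r0 q0)
    have a2 : 0 ≤ r * (s * y ^ 2 * ‖P h u‖) := by positivity
    have a3 : 0 ≤ c := nonneg_of_mul_nonneg_left (by linarith) q0
    nlinarith
  have lim : Tendsto (fun r : ℝ => r * (s * y ^ 2 * ‖P h u‖)) (𝓝[<] 1)
      (𝓝 (1 * (s * y ^ 2 * ‖P h u‖))) :=
    (tendsto_id.mono_left nhdsWithin_le_nhds).mul_const _
  have := le_of_tendsto lim (by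
    filter_upwards [Ioo_mem_nhdsLT one_pos] with r hr
    exact main r hr.1 hr.2)
  rw [y2, hs] at this
  refine le_of_eq_of_le ?_ (mul_le_mul_of_nonneg_left this (by positivity))
  linear_combination (-‖P h u‖ / 3) * t3

end Pool.Agent.H.MP_2306a6_an
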