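import Pool.Agent.H.MP_2306a6_an.B

set_option autoImplicit false

open Set Filter Topology Metric Function Complex Asymptotics
open scoped ComplexConjugate

namespace Pool.Agent.H.MP_2306a6_an

lemma ineq {x Y l : ℝ} (Y0 : 0 ≤ Y) (h : x ^ 2 ≤ 3 * (1 - Y)) (l0 : 0 ≤ l) (l1 : l ≤ 1) :
    l ^ 2 * (1 + 3 * (1 - l) * x * Y + 27 / 4 * (1 - l) ^ 2 * Y ^ 2) ≤ 1 := by
  have m : 0 ≤ 1 - l := by linarith
  have a1 : 2 * l * x ≤ 3 - 3 * Y + l ^ 2 := by nlinarith [sq_nonneg (x - l)]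
  set D := 2 - 3 * (1 - l) * l with hD
  have D0 : 0 < D := by nlinarith [sq_nonneg (l - 1 / 2)]
  have a2 : 0 ≤ 8 + 3 * l - 2 * l ^ 2 - l ^ 3 := by
    nlinarith [pow_le_one₀ (n := 2) l0 l1, pow_le_one₀ (n := 3) l0 l1]
  have a3 : 0 ≤ 1 + l - 3 / 2 * l * (3 + l ^ 2) * Y + 9 / 4 * l * D * Y ^ 2 := by
    refine nonneg_of_mul_nonneg_right (le_of_le_of_eq (add_nonneg (mul_nonneg l0
      (sq_nonneg (3 * D * Y - (3 + l ^ 2)))) (mul_nonneg (sq_nonneg (1 - l)) a2)) ?_)
      (by positivity : 0 < 4 * D)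
    rw [hD]
    ring
  have a4 := mul_le_mul_of_nonneg_left a1 (by positivity : 0 ≤ 3 / 2 * l * (1 - l) * Y)
  have a5 := mul_nonneg m a3
  rw [hD] at a5
  nlinarith

variable {E : Type} [NormedAddCommGroup E] [InnerProductSpace ℂ E] [FiniteDimensional ℂ E]

lemma sub {f g : E → E} (hf : AnalyticOnNhd ℂ f (ball 0 1)) (hg : AnalyticOnNhd ℂ g (ball 0 1))
    (hi : InjOn g (ball 0 1)) (hs : f '' ball 0 1 ⊆ g '' ball 0 1) : ∃ v : E → E,
      AnalyticOnNhd ℂ v (ball 0 1) ∧ MapsTo v (ball 0 1) (ball 0 1) ∧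
      ∀ z ∈ ball (0 : E) 1, g (v z) = f z := by
  have := FiniteDimensional.complete ℂ E
  have m : ∀ z ∈ ball (0 : E) 1, invFunOn g (ball 0 1) (f z) ∈ ball (0 : E) 1 := fun z hz =>
    invFunOn_mem (hs (mem_image_of_mem f hz))
  have e : ∀ z ∈ ball (0 : E) 1, g (invFunOn g (ball 0 1) (f z)) = f z := fun z hz =>
    invFunOn_eq (hs (mem_image_of_mem f hz))
  refine ⟨fun z => invFunOn g (ball 0 1) (f z), fun z hz => ?_, m, e⟩
  have i := osgood _ E E rfl rfl g _ (hg _ (m z hz)) ⟨_, isOpen_ball.mem_nhds (m z hz), hi⟩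
  obtain ⟨H, h1, h2, h3, -⟩ := inv (i := (LinearEquiv.ofInjectiveEndo
    (fderiv ℂ g (invFunOn g (ball 0 1) (f z))).toLinearMap i).toContinuousLinearEquiv)
    (hg _ (m z hz)) (by ext; rfl)
  rw [e z hz] at h1 h2 h3
  have a := h1.comp (hf z hz)
  refine a.congr ?_
  filter_upwards [isOpen_ball.mem_nhds hz, (hf z hz).continuousAt.eventually h3,
    a.continuousAt.eventually (isOpen_ball.mem_nhds (show H (f z) ∈ ball 0 1 from h2 ▸ m z hz))]
    with y y1 y2 y3
  exact hi y3 (m y y1) (y2.trans (e y y1).symm)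

lemma step {f g : E → E} {a b : ℝ} (hf : AnalyticOnNhd ℂ f (ball 0 1))
    (hg : AnalyticOnNhd ℂ g (ball 0 1)) (hi : InjOn g (ball 0 1))
    (hs : f '' ball 0 1 ⊆ g '' ball 0 1) (f0 : f 0 = 0) (g0 : g 0 = 0) (b0 : 0 < b)
    (f1 : fderiv ℂ f 0 = (a : ℂ) • ContinuousLinearMap.id ℂ E)
    (g1 : fderiv ℂ g 0 = (b : ℂ) • ContinuousLinearMap.id ℂ E) {u : E} (hu : ‖u‖ = 1) :
    ‖P f u - ((a / b : ℝ) : ℂ) ^ 2 • P g u‖ ≤ 3 * √3 / 2 * (b - a) := by
  have := FiniteDimensional.complete ℂ E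
  obtain ⟨v, v1, v2, v3⟩ := sub hf hg hi hs
  have z : (0 : E) ∈ ball 0 1 := mem_ball_self one_pos
  have bc : (b : ℂ) ≠ 0 := ofReal_ne_zero.2 b0.ne'
  have v0 : v 0 = 0 := hi (v2 z) z (by rw [v3 0 z, f0, g0])
  have dv : fderiv ℂ v 0 = ((a / b : ℝ) : ℂ) • ContinuousLinearMap.id ℂ E := by
    have := (HasFDerivAt.comp (g := g) (0 : E) (v0.symm ▸ (hg 0 z).differentiableAt.hasFDerivAt)
      (v1 0 z).differentiableAt.hasFDerivAt).unique
      ((hf 0 z).differentiableAt.hasFDerivAt.congr_of_eventuallyEq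
        (mem_of_superset (isOpen_ball.mem_nhds z) v3))
    rw [f1, v0, g1] at this
    ext x
    have : (b : ℂ) • fderiv ℂ v 0 x = (a : ℂ) • x := congrArg (fun A => A x) this
    rw [(eq_inv_smul_iff₀ bc).2 this, smul_smul, ofReal_div, div_eq_inv_mul]
    rfl
  have dh : fderiv ℂ (fun z => z - v z) 0 =
      ((1 - a / b : ℝ) : ℂ) • ContinuousLinearMap.id ℂ E := by
    refine ((hasFDerivAt_id (0 : E)).fun_sub (v1 0 z).differentiableAt.hasFDerivAt).fderiv.trans ?_
    ext x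
    simp [sub_smul, dv]
  have ah : AnalyticOnNhd ℂ (fun z => z - v z) (ball 0 1) := analyticOnNhd_id.sub v1
  have k := key ah (by simp [v0]) dh (fun z hz => by
    have := norm_le_norm_of_mapsTo_ball v1.differentiableOn (v2.mono_right ball_subset_closedBall)
      v0 (mem_ball_zero_iff.1 hz)
    have e := re_inner_le_norm (𝕜 := ℂ) z (v z)
    rw [inner_sub_right, sub_re, show (inner ℂ z z).re = ‖z‖ ^ 2 from
      inner_self_eq_norm_sq (𝕜 := ℂ) z]
    rw [RCLike.re_to_complex] at e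
    nlinarith [norm_nonneg z]) hu
  have j1 := jet (ah 0 z) (by simp [v0]) dh (ray u)
  have tv : Tendsto (fun ζ : ℂ => ζ⁻¹ • v (ζ • u)) (𝓝[≠] 0) (𝓝 (((a / b : ℝ) : ℂ) • u)) := by
    have := (HasFDerivAt.comp_hasDerivAt (l := v) (0 : ℂ) (by
      simpa using (v1 0 z).differentiableAt.hasFDerivAt)
      ((hasDerivAt_id' (0 : ℂ)).smul_const u)).tendsto_slope_zero
    simpa [v0, dv] using this
  have j2 := jet (hg 0 z) g0 g1 tv
  have e := tendsto_nhds_unique (jet (hf 0 z) f0 f1 (ray u)) ((j2.sub (j1.const_smul (b : ℂ))).congr' (by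
    filter_upwards [mem_nhdsWithin_of_mem_nhds ((show Tendsto (fun ζ : ℂ => ζ • u) (𝓝 0) (𝓝 0) from
      Continuous.tendsto' (by fun_prop) _ _ (by simp)).eventually (isOpen_ball.mem_nhds z))]
      with ζ hζ
    rw [v3 _ hζ, smul_comm (b : ℂ), ← smul_sub]
    congr 1
    simp only [smul_sub, smul_smul (b : ℂ) ((1 - a / b : ℝ) : ℂ)]
    rw [show (b : ℂ) * ((1 - a / b : ℝ) : ℂ) = b - a by push_cast; field_simp, sub_smul]
    abel))
  rw [e, Psmul, sub_sub_cancel_left, norm_neg, norm_smul, norm_real, Real.norm_of_nonneg b0.le]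
  refine (mul_le_mul_of_nonneg_left k b0.le).trans_eq ?_
  field_simp

lemma cauchy {f : E → E} {c M : ℝ} (hf : AnalyticOnNhd ℂ f (ball 0 1)) (f0 : f 0 = 0) (c0 : 0 ≤ c)
    (f1 : fderiv ℂ f 0 = (c : ℂ) • ContinuousLinearMap.id ℂ E)
    (hM : ∀ z ∈ ball (0 : E) (1 / 2), ‖f z‖ ≤ M) {u : E} (hu : ‖u‖ = 1) :
    ‖P f u‖ ≤ 4 * (M + c) := by
  have := FiniteDimensional.complete ℂ E
  have z : (0 : E) ∈ ball 0 1 := mem_ball_self one_pos
  refine le_of_tendsto (jet (hf 0 z) f0 f1 (ray u)).norm ?_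
  filter_upwards [self_mem_nhdsWithin, mem_nhdsWithin_of_mem_nhds (ball_mem_nhds (0 : ℂ)
    (by norm_num : (0 : ℝ) < 1 / 2))] with ζ h1 h2
  have n : 0 < ‖ζ‖ := norm_pos_iff.2 h1
  have := dist_le_mul_div_pow_of_mapsTo_ball_of_isLittleO (f := fun z => f z - (c : ℂ) • z)
    (c := 0) (z := ζ • u) (R₁ := 1 / 2) (R₂ := M + c) (n := 1)
    ((hf.differentiableOn.mono (ball_subset_ball (by norm_num))).sub (by fun_prop))
    (fun y hy => by
      simp only [f0, smul_zero, sub_zero, mem_closedBall_zero_iff]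
      refine (norm_sub_le _ _).trans (add_le_add (hM y hy) ?_)
      rw [norm_smul, norm_real, Real.norm_of_nonneg c0]
      exact mul_le_of_le_one_right c0 ((mem_ball_zero_iff.1 hy).le.trans (by norm_num)))
    (by simpa [f0, f1] using (hf 0 z).differentiableAt.hasFDerivAt.isLittleO.norm_right)
    (by simpa [norm_smul, hu] using h2)
  simp only [f0, smul_zero, sub_zero, dist_zero_right, norm_smul, hu] at this
  rw [norm_smul, norm_inv, norm_pow, inv_mul_le_iff₀ (by positivity)]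
  exact this.trans_eq (by ring)

theorem upper {F : ℝ → E → E}
    (h1 : ∀ t : ℝ, 0 ≤ t → AnalyticOnNhd ℂ (F t) (ball 0 1) ∧ InjOn (F t) (ball 0 1) ∧ F t 0 = 0 ∧
      fderiv ℂ (F t) 0 = (Real.exp t : ℂ) • ContinuousLinearMap.id ℂ E)
    (h2 : ∀ s t : ℝ, 0 ≤ s → s ≤ t → F s '' ball 0 1 ⊆ F t '' ball 0 1)
    (h3 : ∀ τ : ℕ → ℝ, (∀ k, 0 ≤ τ k) → ∃ φ : ℕ → ℕ, StrictMono φ ∧ ∃ g : E → E,
      TendstoLocallyUniformlyOn (fun k z => (Real.exp (-τ (φ k)) : ℂ) • F (τ (φ k)) z) g atTop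
        (ball 0 1)) {u : E} (hu : ‖u‖ = 1) : ‖P (F 0) u‖ ≤ 3 * √3 / 2 := by
  have := FiniteDimensional.proper ℂ E
  set K := 3 * √3 / 2
  have main : ∀ δ : ℝ, 0 < δ → ‖P (F 0) u‖ ≤ K * Real.exp δ := fun δ δ0 => by
    have p : ∀ N : ℕ, 0 ≤ N * δ := fun N => by positivity
    have tel : ∀ N : ℕ, ‖P (F 0) u - (Real.exp (-(N * δ)) : ℂ) ^ 2 • P (F (N * δ)) u‖ ≤
        K * (Real.exp δ - Real.exp δ * Real.exp (-(N * δ))) := fun N => by
      induction N with
      | zero => simp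
      | succ N ih =>
        obtain ⟨a1, -, a2, a3⟩ := h1 _ (p N)
        obtain ⟨b1, b2, b3, b4⟩ := h1 _ (p (N + 1))
        have := step a1 b1 b2 (h2 _ _ (p N) (by gcongr; linarith)) a2 b3 (Real.exp_pos _) a3 b4 hu
        have e1 : Real.exp (((N + 1 : ℕ) : ℝ) * δ) = Real.exp (N * δ) * Real.exp δ := by
          rw [← Real.exp_add]
          push_cast
          ring_nf
        have x0 := Real.exp_pos (N * δ)
        have d0 := Real.exp_pos δ
        rw [Real.exp_neg] at ih ⊢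
        rw [e1] at this ⊢
        refine le_of_eq_of_le ?_ ((norm_add_le_of_le ih ((norm_smul ((((Real.exp (N * δ))⁻¹ : ℝ) :
          ℂ) ^ 2) _).trans_le (mul_le_mul_of_nonneg_left this (norm_nonneg _)))).trans_eq ?_)
        · rw [smul_sub, sub_add_sub_cancel, smul_smul, ← mul_pow, ← ofReal_mul]
          congr 5
          field_simp
        · rw [norm_pow, norm_real, Real.norm_of_nonneg (by positivity)]
          field_simp
          ring
    obtain ⟨φ, hφ, g, hg⟩ := h3 (fun k => k * δ) p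
    have sb : closedBall (0 : E) (1 / 2) ⊆ ball 0 1 := closedBall_subset_ball (by norm_num)
    have un := (tendstoLocallyUniformlyOn_iff_forall_isCompact isOpen_ball).1 hg _ sb
      (isCompact_closedBall _ _)
    obtain ⟨M, hM⟩ := (isCompact_closedBall (0 : E) (1 / 2)).exists_bound_of_continuousOn
      (un.continuousOn (Frequently.of_forall fun k =>
        ((h1 _ (p _)).1.continuousOn.mono sb).const_smul _))
    have t0 : Tendsto (fun k => Real.exp (-(φ k * δ))) atTop (𝓝 0) :=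
      Real.tendsto_exp_neg_atTop_nhds_zero.comp
        ((tendsto_natCast_atTop_atTop.comp hφ.tendsto_atTop).atTop_mul_const δ0)
    have t1 := (((t0.const_mul (Real.exp δ)).const_sub (Real.exp δ)).const_mul K).add
      (t0.const_mul (4 * (M + 1 + 1)))
    simp only [mul_zero, sub_zero, add_zero] at t1
    refine ge_of_tendsto t1 ?_
    filter_upwards [Metric.tendstoUniformlyOn_iff.1 un 1 one_pos] with k hk
    obtain ⟨a1, -, a2, a3⟩ := h1 _ (p (φ k))
    have x0 := Real.exp_pos (φ k * δ)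
    have := cauchy (M := Real.exp (φ k * δ) * (M + 1)) a1 a2 x0.le a3 (fun z hz => by
      have hz' := ball_subset_closedBall hz
      have e := norm_le_norm_add_norm_sub' ((Real.exp (-(φ k * δ)) : ℂ) • F (φ k * δ) z) (g z)
      rw [norm_smul, norm_real, Real.norm_of_nonneg (Real.exp_pos _).le, ← dist_eq_norm',
        Real.exp_neg] at e
      rw [← inv_mul_le_iff₀ x0]
      have := hk z hz'
      rw [Real.exp_neg] at this
      linarith [hM z hz']) hu
    refine (norm_le_norm_sub_add _ _).trans (add_le_add (tel (φ k)) ?_)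
    rw [norm_smul, norm_pow, norm_real, Real.norm_of_nonneg (Real.exp_pos _).le, Real.exp_neg]
    refine (mul_le_mul_of_nonneg_left this (by positivity)).trans_eq ?_
    field_simp
  have lim : Tendsto (fun δ : ℝ => K * Real.exp δ) (𝓝[>] 0) (𝓝 (K * Real.exp 0)) :=
    ((Real.continuous_exp.tendsto 0).mono_left nhdsWithin_le_nhds).const_mul _
  simpa using ge_of_tendsto lim (eventually_nhdsWithin_of_forall main)

/-- the shear -/
noncomputable def sh (a : ℂ) (p q z : E) : E := z + (a * inner ℂ q z ^ 2) • p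

omit [FiniteDimensional ℂ E] in
lemma sh_an (a : ℂ) (p q z : E) : AnalyticAt ℂ (sh a p q) z :=
  analyticAt_id.add ((analyticAt_const.mul (((innerSL ℂ q).analyticAt z).pow 2)).smul
    analyticAt_const)

omit [FiniteDimensional ℂ E] in
lemma sh_d (a : ℂ) (p q : E) : HasFDerivAt (sh a p q) (ContinuousLinearMap.id ℂ E) 0 :=
  ((hasFDerivAt_id 0).add ((((innerSL ℂ q).hasFDerivAt.pow 2).const_mul a).smul_const
    p)).congr_fderiv (by ext x; simp)

omit [FiniteDimensional ℂ E] in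
lemma sh_inj (a : ℂ) {p q : E} (h : inner ℂ q p = 0) : Injective (sh a p q) := fun x y e => by
  have := congrArg (inner ℂ q) e
  simp only [sh, inner_add_right, inner_smul_right, h, mul_zero, add_zero] at this
  rw [sh, sh, this] at e
  exact add_right_cancel e

lemma sh_P (a : ℂ) (p q u : E) : P (sh a p q) u = (a * inner ℂ q u ^ 2) • p := by
  have := FiniteDimensional.complete ℂ E
  refine tendsto_nhds_unique (jet (c := 1) (sh_an a p q 0) (by simp [sh])
    (by simp [(sh_d a p q).fderiv]) (ray u)) (tendsto_const_nhds.congr'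
      (eventually_nhdsWithin_of_forall fun ζ h => ?_))
  have : ζ ≠ 0 := h
  simp only [sh, one_smul, add_sub_cancel_left, inner_smul_right]
  rw [smul_smul]
  congr 1
  field_simp

omit [FiniteDimensional ℂ E] in
lemma sh_star {p q : E} (h : Orthonormal ℂ ![p, q]) {l : ℝ} (l0 : 0 < l) (l1 : l ≤ 1) {z : E}
    (hz : z ∈ ball (0 : E) 1) : ∃ y ∈ ball (0 : E) 1,
      sh ((3 * √3 / 2 : ℝ) : ℂ) p q y = (l : ℂ) • sh ((3 * √3 / 2 : ℝ) : ℂ) p q z := by
  set a := 3 * √3 / 2 with ha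
  have o : inner ℂ q p = 0 := h.2 (show (1 : Fin 2) ≠ 0 by simp)
  have p1 : ‖p‖ = 1 := h.1 0
  have be := h.sum_inner_products_le z (s := Finset.univ)
  simp only [Fin.sum_univ_two, Matrix.cons_val_zero, Matrix.cons_val_one] at be
  have t3 : √3 ^ 2 = 3 := Real.sq_sqrt (by norm_num)
  refine ⟨(l : ℂ) • (z + (((1 - l) * a : ℝ) * inner ℂ q z ^ 2) • p), ?_, ?_⟩
  · rw [mem_ball_zero_iff] at hz ⊢
    have z1 : ‖z‖ ^ 2 < 1 := pow_lt_one₀ (norm_nonneg _) hz two_ne_zero
    have m : 0 ≤ (1 - l) * a := mul_nonneg (by linarith) (by positivity)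
    have e := ineq (x := √3 * ‖inner ℂ p z‖) (Y := ‖inner ℂ q z‖ ^ 2) (by positivity)
      (by rw [mul_pow, t3]; linarith) l0.le l1
    have r := (RCLike.re_le_norm (inner ℂ z ((((1 - l) * a : ℝ) * inner ℂ q z ^ 2) • p)))
    rw [inner_smul_right z, norm_mul, norm_mul, norm_real, Real.norm_of_nonneg m, norm_pow,
      norm_inner_symm z, ← inner_smul_right z] at r
    rw [← sq_lt_one_iff₀ (norm_nonneg _), norm_smul, mul_pow, norm_add_sq (𝕜 := ℂ), norm_real,
      Real.norm_of_nonneg l0.le, norm_smul, norm_mul, norm_real, Real.norm_of_nonneg m, p1,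
      norm_pow]
    refine lt_of_lt_of_le (mul_lt_mul_of_pos_left ?_ (by positivity)) e
    have : ((1 - l) * a * ‖inner ℂ q z‖ ^ 2 * 1) ^ 2 =
        27 / 4 * (1 - l) ^ 2 * (‖inner ℂ q z‖ ^ 2) ^ 2 := by
      rw [ha]
      linear_combination (9 / 4 * (1 - l) ^ 2 * ‖inner ℂ q z‖ ^ 4) * t3
    rw [this]
    rw [ha] at r
    linarith
  · simp only [sh, inner_smul_right, inner_add_right, o, smul_add, smul_smul, add_assoc,
      ← add_smul]
    congr 2
    push_cast
    ring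

end Pool.Agent.H.MP_2306a6_an
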